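import Pool.Agent.TH176.NM.WL

/-!
# The weak Lefschetz property for generic forms: degrees up to `(4 δ - 5) / 3`, and in full for
`4 ^ (n - 1)` forms in `n + 1` variables

Let `K` be any field and `f i` generic forms of degrees `d i` in `n + 1` variables. Multiplication
by `x_0` from degree `k` to degree `k + 1` of the quotient is injective or surjective if
`3 (k + 1) + 2 ≤ 4 d i` for all `i`, and in all degrees if the coefficient of Fröberg's series in
`n` variables is not positive in some degree `D` with `3 D + 2 ≤ 4 d i` for all `i`, in particular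
for at least `4 ^ (n - 1)` forms of equal degree, `n ≥ 3`.

Idea of the proof. By our theorem on Fröberg's formula (a product inequality for sets of monomials)
the restrictions of the forms to a hyperplane have maximal rank in these degrees. This gives maximal
rank of the multiplication by the equation of the hyperplane.
-/

set_option autoImplicit false

namespace Pool.Agent.Results.MP_2ad852_ag.FullWeak

open MvPolynomial

/-- Multiplication by `x_0` as a map from degree `k` to degree `k + 1` of the quotient of the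
polynomial ring in `n + 1` variables by the forms `f i` is injective or surjective. -/
def MaximalRank {K : Type} [Field K] {n r : ℕ} (f : Fin r → MvPolynomial (Fin (n + 1)) K)
    (k : ℕ) : Prop :=
  (∀ g : MvPolynomial (Fin (n + 1)) K, g.IsHomogeneous k → X 0 * g ∈ Ideal.span (Set.range f) →
    g ∈ Ideal.span (Set.range f)) ∨
  (∀ F : MvPolynomial (Fin (n + 1)) K, F.IsHomogeneous (k + 1) →
    ∃ g : MvPolynomial (Fin (n + 1)) K, g.IsHomogeneous k ∧
      F - X 0 * g ∈ Ideal.span (Set.range f))

/-- The coefficient of `z ^ k` in `(1 - z) ^ (-n) * ∏ i, (1 - z ^ d i)`. -/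
noncomputable def co (n : ℕ) {r : ℕ} (d : Fin r → ℕ) (k : ℕ) : ℤ :=
  PowerSeries.coeff k
    ((PowerSeries.mk fun _ => (1 : ℤ)) ^ n * ∏ i : Fin r, (1 - PowerSeries.X ^ d i))

/-- The weak Lefschetz property for generic forms in `n + 1` variables. -/
theorem result (n : ℕ) (hn : 1 ≤ n) (K : Type) [Field K] (r : ℕ) (d : Fin r → ℕ) :
    ∃ P : MvPolynomial (Σ i : Fin r, {m : Fin (n + 1) →₀ ℕ // Finsupp.degree m = d i}) K,
      P ≠ 0 ∧
      ∀ f : Fin r → MvPolynomial (Fin (n + 1)) K, (∀ i, (f i).IsHomogeneous (d i)) →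
        MvPolynomial.eval
            (fun s : (Σ i : Fin r, {m : Fin (n + 1) →₀ ℕ // Finsupp.degree m = d i}) =>
              (f s.1).coeff s.2.1) P ≠ 0 →
        ∀ k : ℕ,
          ((∀ i, 3 * (k + 1) + 2 ≤ 4 * d i) ∨
            (∃ D ≤ k + 1, (∀ i, 3 * D + 2 ≤ 4 * d i) ∧ co n d D ≤ 0) ∨
            (3 ≤ n ∧ 4 ^ (n - 1) ≤ r ∧ ∃ δ, 1 ≤ δ ∧ ∀ i, d i = δ)) →
          MaximalRank f k := by
  obtain ⟨P, hP, hP2⟩ := Pool.Agent.TH176.NM.wl_new K n r d hn
  refine ⟨P, hP, fun f hf hfP k hk => hP2 f hf hfP k ?_⟩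
  rcases hk with hk | ⟨D, hD, hD2, hco⟩ | ⟨h3, hr, δ, hδ, hd⟩
  · exact Or.inl (Pool.Agent.TH176.NM.Gd_of_four n d (k + 1) hk)
  · exact Or.inr ⟨D, hD, Pool.Agent.TH176.NM.Gd_of_four n d D hD2, hco⟩
  · exact Pool.Agent.TH176.NM.equal n r δ d h3 hr hδ hd (k + 1)

end Pool.Agent.Results.MP_2ad852_ag.FullWeak
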