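import Pool.Agent.TH176.WL.Full

/-!
# The weak Lefschetz property for `t ^ n` generic forms of equal degree in `n + 2` variables

Let `n ≥ 3` and `t ≥ (n + 1) ^ 2`, or `n = 3` and `t ≥ 2`. The quotient of the polynomial ring in
`n + 2` variables over a field of characteristic zero by `t ^ n` generic forms of any equal degree
`d` has the weak Lefschetz property.

Idea of the proof. By our theorems on fat points (independence for points on a complete intersection
curve, emptiness by a degeneration to normal cones and Descartes' rule of signs) the restrictions of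
the forms to a hyperplane, that is, `t ^ n` generic forms in `n + 1` variables, have maximal rank in
all degrees. This gives maximal rank of the multiplication by the equation of the hyperplane.
-/

set_option autoImplicit false

namespace Pool.Agent.Results.MP_2ad852_ag.PerfectPowers

open MvPolynomial

/-- Multiplication by `x_0` as a map from degree `k` to degree `k + 1` of the quotient of the
polynomial ring in `n + 1` variables by the forms `f i` is injective or surjective. -/
def MaximalRank {K : Type} [Field K] {n r : ℕ} (f : Fin r → MvPolynomial (Fin (n + 1)) K)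
    (k : ℕ) : Prop :=
  (∀ g : MvPolynomial (Fin (n + 1)) K, g.IsHomogeneous k → X 0 * g ∈ Ideal.span (Set.range f) →
    g ∈ Ideal.span (Set.range f)) ∨
  (∀ F : MvPolynomial (Fin (n + 1)) K, F.IsHomogeneous (k + 1) →
    ∃ g : MvPolynomial (Fin (n + 1)) K, g.IsHomogeneous k ∧
      F - X 0 * g ∈ Ideal.span (Set.range f))

/-- The weak Lefschetz property for `t ^ n` generic forms in `n + 2` variables. -/
theorem result (K : Type) [Field K] [CharZero K] (n t d : ℕ)
    (ht : (3 ≤ n ∧ (n + 1) ^ 2 ≤ t) ∨ (n = 3 ∧ 2 ≤ t)) (hd : 1 ≤ d) :
    ∃ P : MvPolynomial (Σ _ : Fin (t ^ n), {m : Fin (n + 2) →₀ ℕ // Finsupp.degree m = d}) K,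
      P ≠ 0 ∧
      ∀ f : Fin (t ^ n) → MvPolynomial (Fin (n + 2)) K, (∀ i, (f i).IsHomogeneous d) →
        MvPolynomial.eval
            (fun s : (Σ _ : Fin (t ^ n), {m : Fin (n + 2) →₀ ℕ // Finsupp.degree m = d}) =>
              (f s.1).coeff s.2.1) P ≠ 0 →
        ∀ k : ℕ, MaximalRank f k :=
  Pool.Agent.TH176.WL.wl_full K n t d ht hd

end Pool.Agent.Results.MP_2ad852_ag.PerfectPowers
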