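import Pool.Agent.TH401.WL2

/-!
# The weak Lefschetz property for many generic forms

Let `A = K[x_1, …, x_n] / (f_1, …, f_r)` for generic forms `f_i` of degrees `d_i`.

* Let `K` have characteristic zero, `n ≥ 4`, `r ≥ 3 ^ (n - 2)` and `c = r ^ (1 / (n - 2))`. For
  forms of equal degree the multiplication `A_i → A_{i+1}` by a linear form has maximal rank for all
  `i` with the exception of at most `n - 2 + ⌊(2 n - 7) / (c - 1)⌋` consecutive ones. The same
  holds for many families of different degrees.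
* Let `K` be any field and `D < 2 d_i` for all `i`, and suppose that for all `i` the number
  `D - d_i` is at most `(n - 3) / 2` or `d_i` is large in comparison with it. Then
  `A_i → A_{i+1}` has maximal rank for all `i < D`, and for all `i` if
  `∑ dim S'_{j - d_i} ≥ dim S'_j` for some `j ≤ D`, for the polynomial ring `S'` in `n - 1`
  variables.

In both cases also the powers of the linear form have maximal rank from degree `i` to degree
`i + e` if both degrees are on the same side.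

Idea of the proof. Let `l = x_1`, and let `g_i` be the restriction of `f_i` to `x_1 = 0`. In the
degrees `D` in which the `g_i` have no syzygies (that is, `dim (g)_D = ∑ dim S'_{D - d_i}`) the
exact sequence `A_{D-1} → A_D → (S' / (g))_D → 0` and an induction on `D` show that the `f_i` have
no syzygies either and that the multiplication `A_{D-1} → A_D` is injective. If `(S' / (g))_D = 0`
it is surjective. So the formula of Fröberg for `n - 1` variables gives the weak Lefschetz property.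
-/

set_option autoImplicit false

namespace Pool.Agent.Results.MP_2ad852_ag.WeakLefschetz

open MvPolynomial

/-- The multiplication by `l ^ e`, from degree `i` to degree `i + e` of the quotient of
`K[x_1, …, x_n]` by the ideal generated by the forms `f j`, is injective. -/
def Inj {K : Type} [Field K] {n r : ℕ} (f : Fin r → MvPolynomial (Fin n) K)
    (l : MvPolynomial (Fin n) K) (i e : ℕ) : Prop :=
  ∀ g : MvPolynomial (Fin n) K, g.IsHomogeneous i →
    l ^ e * g ∈ Ideal.span (Set.range f) → g ∈ Ideal.span (Set.range f)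

/-- The multiplication by `l ^ e`, from degree `i` to degree `i + e` of the quotient of
`K[x_1, …, x_n]` by the ideal generated by the forms `f j`, is surjective. -/
def Surj {K : Type} [Field K] {n r : ℕ} (f : Fin r → MvPolynomial (Fin n) K)
    (l : MvPolynomial (Fin n) K) (i e : ℕ) : Prop :=
  ∀ h : MvPolynomial (Fin n) K, h.IsHomogeneous (i + e) →
    ∃ g : MvPolynomial (Fin n) K, g.IsHomogeneous i ∧ h - l ^ e * g ∈ Ideal.span (Set.range f)

/-- For generic forms of the degrees `d j` in `n` variables there is a linear form `l` such that the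
multiplication by `l ^ e` from degree `i` to degree `i + e` is injective for all `i`, `e` with
`I i e` and surjective for all `i`, `e` with `S i e`. -/
def Lef (K : Type) [Field K] (n : ℕ) {r : ℕ} (d : Fin r → ℕ) (I S : ℕ → ℕ → Prop) : Prop :=
  ∃ P : MvPolynomial (Σ i : Fin r, {m : Fin n →₀ ℕ // Finsupp.degree m = d i}) K, P ≠ 0 ∧
    ∀ f : Fin r → MvPolynomial (Fin n) K, (∀ i, (f i).IsHomogeneous (d i)) →
      MvPolynomial.eval
          (fun s : (Σ i : Fin r, {m : Fin n →₀ ℕ // Finsupp.degree m = d i}) =>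
            (f s.1).coeff s.2.1) P ≠ 0 →
      ∃ l : MvPolynomial (Fin n) K, l.IsHomogeneous 1 ∧ l ≠ 0 ∧
        ∀ i e : ℕ, (I i e → Inj f l i e) ∧ (S i e → Surj f l i e)

/-- The number of the products of forms of the degrees `d i` with monomials in `n - 1` variables,
of degree `j`. -/
def E (n : ℕ) {r : ℕ} (d : Fin r → ℕ) (j : ℕ) : ℕ :=
  ∑ i, if d i ≤ j then (n - 2 + (j - d i)).choose (j - d i) else 0

/-- Many generic forms and the weak Lefschetz property. -/
theorem result (n : ℕ) (hn : 2 ≤ n) (K : Type) [Field K] (r : ℕ) (d : Fin r → ℕ)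
    (hd1 : ∀ i, 1 ≤ d i) :
    (∀ D : ℕ, (∀ i, D < 2 * d i) →
      (∀ i, d i ≤ D → 2 * (D - d i) + 3 ≤ n ∨
        2 * (n - 1 + (D - d i)) * (n - 2 + (D - d i)).choose (D - d i) ≤
          (n - 1) * (n - 2 + d i).choose (d i)) →
      Lef K n d (fun i e => i + e ≤ D ∧ ∀ j ≤ i + e, E n d j < (n - 2 + j).choose j)
        (fun i _ => ∃ j ≤ D, j ≤ i + 1 ∧ (n - 2 + j).choose j ≤ E n d j)) ∧
    (4 ≤ n → CharZero K → 3 ^ (n - 2) ≤ r → ∀ δ : ℕ, 1 ≤ δ → (∀ i, δ ≤ d i) →
      ((∀ i, 3 * d i ≤ 4 * δ) ∨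
        (r : ℝ) ^ (((n : ℝ) - 3) / (n - 2)) * (2 * δ - 1) < ∑ i, ((2 * δ - d i : ℕ) : ℝ)) →
      ∃ k₁ k₂ : ℕ, k₁ ≤ k₂ ∧ Lef K n d (fun i e => i + e < k₁) (fun i _ => k₂ ≤ i + 1) ∧
        (∀ D : ℕ, D < δ ∨ (r : ℝ) ^ ((1 : ℝ) / (n - 2)) * (D + n - 2 - δ) + (n - 4) < D →
          D < k₁ ∨ k₂ ≤ D) ∧
        (∀ D : ℕ, (r : ℝ) ^ (((n : ℝ) - 3) / (n - 2)) * D < ∑ i, ((D + 1 - d i : ℕ) : ℝ) →
          k₂ ≤ D) ∧
        (∀ s : ℕ, (∀ i, d i ≤ δ + s) →
          (k₂ : ℝ) ≤ k₁ + (n - 2 + s) +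
            (2 * n - 7 + s) / ((r : ℝ) ^ ((1 : ℝ) / (n - 2)) - 1) ∧
          (2 * (n - 2).factorial * (δ - 1 + (r : ℝ) ^ ((1 : ℝ) / (n - 2)) * s) ^ (n - 1) ≤
            ((r : ℝ) ^ ((1 : ℝ) / (n - 2)) - 1) ^ (n - 1) * (δ : ℝ) ^ (n - 2) → k₁ = k₂))) := by
  refine ⟨fun D hD hc => ?_, fun hn4 hK hr δ hδ hd h => ?_⟩
  · obtain ⟨M, rfl⟩ : ∃ M, n = (M + 1) + 1 := ⟨n - 2, by omega⟩
    have e0 : M + 1 + 1 - 2 = M := by omega
    have e1 : M + 1 + 1 - 1 = M + 1 := by omega
    have e2 : ∀ t : ℕ, M + 1 + t - 1 = M + t := fun t => by omega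
    simp only [e0, e1] at hc ⊢
    obtain ⟨P, hP, hP2⟩ := Pool.Agent.TH401.WL.low K (M + 1) (by omega) d hd1 D hD
      (fun i hi => by
        unfold Pool.Agent.TH206.Fro.Cond
        rw [e2, e2]
        rcases hc i hi with h | h
        · exact Or.inl (by omega)
        · exact Or.inr h)
    have hE : ∀ j, Fintype.card (Pool.Agent.TH206.Fro.Ro (M + 1) j d) = E (M + 1 + 1) d j := by
      intro j
      rw [Pool.Agent.TH206.Fro.card_Ro]
      simp only [Pool.Agent.TH206.Fro.card_Mon, e2]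
      rfl
    have hM : ∀ j, (Pool.Agent.TH206.Fro.Mon (M + 1) j).card = (M + j).choose j := by
      intro j
      rw [Pool.Agent.TH206.Fro.card_Mon, e2]
    simp only [hE, hM] at hP2
    exact ⟨P, hP, fun f hf hfP => ⟨X 0, isHomogeneous_X _ _, X_ne_zero _,
      fun i e => ⟨fun h => (hP2 f hf hfP i e).1 h.1 h.2, (hP2 f hf hfP i e).2⟩⟩⟩
  · obtain ⟨j, rfl⟩ : ∃ j, n = j + 4 := ⟨n - 4, by omega⟩
    have e3 : j + 4 - 2 = j + 2 := rfl
    have e4 : j + 4 - 1 = j + 3 := rfl
    rw [e3] at hr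
    have hr0 : 0 < r := lt_of_lt_of_le (by positivity) hr
    obtain ⟨h0, hu, huE⟩ := Pool.Agent.H932R5.pos_root (E := j + 1) hr0
    have c1 : (((j + 1 : ℕ) : ℝ) + 1) = ((j + 4 : ℕ) : ℝ) - 2 := by push_cast; ring
    have c2 : ((j + 1 : ℕ) : ℝ) = ((j + 4 : ℕ) : ℝ) - 3 := by push_cast; ring
    rw [c1] at h0 hu huE
    rw [c2] at huE
    obtain ⟨u, hu1⟩ : ∃ u : ℝ, (r : ℝ) ^ ((1 : ℝ) / (((j + 4 : ℕ) : ℝ) - 2)) = u := ⟨_, rfl⟩
    rw [hu1] at h0 hu huE
    rw [huE] at h
    have hu3 : 3 ≤ u := by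
      by_contra hcon
      push Not at hcon
      have h1 : u ^ (j + 1 + 1) < 3 ^ (j + 1 + 1) := pow_lt_pow_left₀ hcon h0.le (by omega)
      rw [hu] at h1
      have h2 : r < 3 ^ (j + 2) := by exact_mod_cast h1
      exact absurd hr (not_le.2 h2)
    obtain ⟨k₁, k₂, h12, hA, hB, hC, P, hP, hP2⟩ :=
      Pool.Agent.TH401.WL.main j K r δ d u hu3 hu hδ hd h
    refine ⟨k₁, k₂, h12, ⟨P, hP, fun f hf hfP => ⟨X 0, isHomogeneous_X _ _, X_ne_zero _,
      fun i e => hP2 f hf hfP i e⟩⟩, ?_, ?_, ?_⟩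
    · intro D hD
      rw [hu1] at hD
      have d1 : (D : ℝ) + ((j + 4 : ℕ) : ℝ) - 2 - δ = D + j + 2 - δ := by push_cast; ring
      have d2 : ((j + 4 : ℕ) : ℝ) - 4 = j := by push_cast; ring
      rw [d1, d2] at hD
      exact hA D hD
    · intro D hD
      rw [huE] at hD
      exact hB D hD
    · intro s hs
      rw [hu1, e3, e4]
      have d3 : ((j + 4 : ℕ) : ℝ) - 2 + s = j + 2 + s := by push_cast; ring
      have d4 : 2 * ((j + 4 : ℕ) : ℝ) - 7 + s = 2 * j + 1 + s := by push_cast; ring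
      rw [d3, d4]
      exact hC s hs

end Pool.Agent.Results.MP_2ad852_ag.WeakLefschetz
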